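import Mathlib.Order.CompleteBooleanAlgebra
import Mathlib.SetTheory.Cardinal.Aleph
import Mathlib.Topology.Order.Basic
import Mathlib.Topology.Bases

/-! Aronszajn lines, clubs of countable sets, totally proper complete Boolean algebras. -/

open Set

namespace Pool.Agent.Ctry.PS

/-- `L` is an Aronszajn line: uncountable, no copy of `ω₁` or of its reverse, and every suborder
that is separable in its own order topology is countable -/
structure Aronszajn (L : Type) [LinearOrder L] : Prop where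
  unc : Uncountable L
  noInc : ∀ f : (Cardinal.aleph.{0} 1).ord.ToType → L, ¬ StrictMono f
  noDec : ∀ f : (Cardinal.aleph.{0} 1).ord.ToType → L, ¬ StrictAnti f
  noSep : ∀ X : Set L, @TopologicalSpace.SeparableSpace X (Preorder.topology X) → X.Countable

/-- `C` is a club of countable subsets of `X` -/
structure IsClub {X : Type} (C : Set (Set X)) : Prop where
  ctble : ∀ M ∈ C, M.Countable
  cof : ∀ S : Set X, S.Countable → ∃ M ∈ C, S ⊆ M
  union : ∀ M : ℕ → Set X, Monotone M → (∀ n, M n ∈ C) → ⋃ n, M n ∈ C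

/-- `D` is dense in `B ∖ {⊥}` -/
def IsDense {B : Type} [CompleteBooleanAlgebra B] (D : Set B) : Prop :=
  ∀ p, p ≠ ⊥ → ∃ d ∈ D, d ≠ ⊥ ∧ d ≤ p

/-- `B` is totally proper: for club many countable collections `M` of elements and subsets of `B`,
every nonzero `p ∈ M` has a nonzero `q ≤ p` that lies below a member of `D ∩ M` for every dense
`D ∈ M` -/
def TotallyProper (B : Type) [CompleteBooleanAlgebra B] : Prop :=
  ∃ C : Set (Set (B ⊕ Set B)), IsClub C ∧ ∀ M ∈ C, ∀ p, p ≠ ⊥ → Sum.inl p ∈ M →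
    ∃ q, q ≠ ⊥ ∧ q ≤ p ∧ ∀ D, Sum.inr D ∈ M → IsDense D → ∃ d ∈ D, Sum.inl d ∈ M ∧ q ≤ d

end Pool.Agent.Ctry.PS
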