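import Mathlib.Order.Heyting.Regular
import Mathlib.Order.UpperLower.CompleteLattice
import Mathlib.Order.UpperLower.Principal
import Pool.Agent.MP_77405c_lc.Base
import Pool.Agent.MP_77405c_lc.PS.Defs

/-! The regular open algebra of a preorder, Boolean values of open predicates, and the passage
from the club filter on codes to clubs of countable sets. -/

open Set Filter

namespace Pool.Agent.Ctry.PS

/-- `i` is a dense embedding of the set `S` of conditions into `B ∖ {⊥}` -/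
structure DE {X : Type*} [Preorder X] (S : Set X) {B : Type} [CompleteBooleanAlgebra B]
    (i : X → B) : Prop where
  mono : ∀ p ∈ S, ∀ q ∈ S, p ≤ q → i p ≤ i q
  ne : ∀ p ∈ S, i p ≠ ⊥
  dense : ∀ b, b ≠ ⊥ → ∃ p ∈ S, i p ≤ b
  cmp : ∀ p ∈ S, ∀ q ∈ S, ¬ Disjoint (i p) (i q) → ∃ r ∈ S, r ≤ p ∧ r ≤ q

theorem exists_ro0 (Q : Type) [Preorder Q] :
    ∃ (B : Type) (_ : CompleteBooleanAlgebra B) (i : Q → B), DE univ i := by
  let c : CompleteBooleanAlgebra (Heyting.Regular (LowerSet Q)) :=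
    { (inferInstance : BooleanAlgebra (Heyting.Regular (LowerSet Q))),
      (Heyting.Regular.gi (α := LowerSet Q)).liftCompleteLattice with }
  refine ⟨Heyting.Regular (LowerSet Q), c, fun p => Heyting.Regular.toRegular (LowerSet.Iic p),
    fun p _ q _ h => Heyting.Regular.toRegular.monotone (LowerSet.Iic_le.2 (LowerSet.mem_Iic_iff.2 h)), fun p _ h => ?_,
    fun b hb => ?_, fun p _ q _ h => ?_⟩
  · have h1 : (LowerSet.Iic p)ᶜᶜ = ⊥ := congrArg Heyting.Regular.val h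
    have h2 : LowerSet.Iic p ≤ ⊥ := h1 ▸ le_compl_compl
    exact h2 (LowerSet.mem_Iic_iff.2 le_rfl)
  · have h1 : (b : LowerSet Q) ≠ ⊥ := fun h => hb (Heyting.Regular.coe_injective h)
    obtain ⟨p, hp⟩ : ((b : LowerSet Q) : Set Q).Nonempty :=
      nonempty_iff_ne_empty.2 fun h => h1 (LowerSet.ext h)
    exact ⟨p, trivial, Heyting.Regular.gi.gc.l_le (LowerSet.Iic_le.2 hp)⟩
  · by_contra hn
    refine h (disjoint_iff.2 (Heyting.Regular.coe_injective ?_))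
    have h1 : LowerSet.Iic p ⊓ LowerSet.Iic q = ⊥ :=
      le_bot_iff.1 fun r hr => (hn ⟨r, trivial, hr.1, hr.2⟩).elim
    change (LowerSet.Iic p)ᶜᶜ ⊓ (LowerSet.Iic q)ᶜᶜ = ⊥
    rw [← compl_compl_inf_distrib, h1, compl_bot, compl_top]

theorem exists_ro {X : Type 1} [Preorder X] (S : Set X) [Small.{0} S] :
    ∃ (B : Type) (_ : CompleteBooleanAlgebra B) (i : X → B), DE S i := by
  classical
  let : Preorder (Shrink.{0} S) := Preorder.lift fun a => ((equivShrink S).symm a).1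
  obtain ⟨B, _, i, h⟩ := exists_ro0 (Shrink.{0} S)
  have e : ∀ p q : S, equivShrink S p ≤ equivShrink S q ↔ p.1 ≤ q.1 := fun p q => by
    change ((equivShrink S).symm _).1 ≤ ((equivShrink S).symm _).1 ↔ _
    simp
  refine ⟨B, inferInstance, fun p => if k : p ∈ S then i (equivShrink S ⟨p, k⟩) else ⊥,
    fun p hp q hq k => ?_, fun p hp => ?_, fun b hb => ?_, fun p hp q hq k => ?_⟩
  · simp only [dif_pos hp, dif_pos hq]
    exact h.mono _ trivial _ trivial ((e _ _).2 k)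
  · simp only [dif_pos hp]
    exact h.ne _ trivial
  · obtain ⟨a, -, ha⟩ := h.dense b hb
    obtain ⟨p, rfl⟩ := (equivShrink S).surjective a
    exact ⟨p.1, p.2, by simpa only [dif_pos p.2] using ha⟩
  · simp only [dif_pos hp, dif_pos hq] at k
    obtain ⟨a, -, h1, h2⟩ := h.cmp _ trivial _ trivial k
    obtain ⟨r, rfl⟩ := (equivShrink S).surjective a
    exact ⟨r.1, r.2, (e _ _).1 h1, (e _ _).1 h2⟩

section

variable {X : Type*} [Preorder X] {S : Set X} {B : Type} [CompleteBooleanAlgebra B] {i : X → B}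

/-- the Boolean value of a predicate on conditions -/
def val (S : Set X) (i : X → B) (R : X → Prop) : B := ⨆ r ∈ {r ∈ S | R r}, i r

omit [Preorder X] in
theorem le_val {R : X → Prop} {r : X} (h : r ∈ S) (h' : R r) : i r ≤ val S i R :=
  le_biSup (s := {r ∈ S | R r}) i ⟨h, h'⟩

omit [Preorder X] in
theorem val_mono {R R' : X → Prop} (h : ∀ r ∈ S, R r → R' r) : val S i R ≤ val S i R' :=
  iSup₂_le fun r hr => le_val hr.1 (h r hr.1 hr.2)

theorem DE.le (h : DE S i) {b c : B} (k : ∀ r ∈ S, i r ≤ b → ∃ r' ∈ S, r' ≤ r ∧ i r' ≤ c) :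
    b ≤ c := by
  rw [← sdiff_eq_bot_iff, _root_.sdiff_eq]
  by_contra hn
  obtain ⟨r, h1, h2⟩ := h.dense _ hn
  obtain ⟨r', h3, h4, h5⟩ := k r h1 (h2.trans inf_le_left)
  exact h.ne r' h3 (le_bot_iff.1 ((le_inf h5 ((h.mono _ h3 _ h1 h4).trans
    (h2.trans inf_le_right))).trans (inf_compl_eq_bot (a := c)).le))

theorem DE.of_val (h : DE S i) {R : X → Prop} (hR : ∀ p q, q ≤ p → R p → R q) {r : X} (hr : r ∈ S)
    (k : i r ≤ val S i R) : ∃ r' ∈ S, r' ≤ r ∧ R r' := by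
  by_contra hn
  refine h.ne r hr (disjoint_self.1 (Disjoint.mono_right k ?_))
  refine disjoint_iSup₂_iff.2 fun p hp => by_contra fun hd => ?_
  obtain ⟨w, h1, h2, h3⟩ := h.cmp r hr p hp.1 hd
  exact hn ⟨w, h1, h2, hR _ _ h3 hp.2⟩

end

/-- traces of closed models contain a club -/
theorem club_tr {Y : Type} [Cd Y] {Φ : Set Y → Prop} (h : ∀ᶠ N in club, Φ {y | cd y ∈ N}) :
    ∃ C : Set (Set Y), IsClub C ∧ ∀ M ∈ C, Φ M := by
  obtain ⟨F, hF⟩ := ev_iff.1 h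
  refine ⟨{M | ∃ N, Cl F N ∧ M = {y | cd y ∈ N}}, ⟨fun M ⟨N, h1, h2⟩ => h2 ▸ h1.1.ctble' Y,
    fun S hS => ?_, fun M hM h1 => ?_⟩, fun M ⟨N, h1, h2⟩ => h2 ▸ hF N h1⟩
  · obtain ⟨u, h1, h2⟩ := exists_code_ctble hS
    obtain ⟨N, h3, h4⟩ := exists_cl F u
    exact ⟨_, ⟨N, h3, rfl⟩, fun y hy => h3.1.sub u h4 h1 ((h2 y).2 hy)⟩
  · choose N h2 h3 using h1
    let H : ℕ → U := fun n => (N n).sep fun y => ∀ N', Cl F N' → (∀ x ∈ M n, cd x ∈ N') → y ∈ N'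
    have h4 : ∀ n, ∀ x ∈ M n, cd x ∈ N n := fun n x hx => by rw [h3 n] at hx; exact hx
    have e : ∀ n y, y ∈ H n ↔ ∀ N', Cl F N' → (∀ x ∈ M n, cd x ∈ N') → y ∈ N' := fun n y =>
      ZFSet.mem_sep.trans ⟨fun k => k.2, fun k => ⟨k _ (h2 n) (h4 n), k⟩⟩
    have c : ∀ n, Cl F (H n) := fun n => by
      refine ⟨⟨(h2 n).1.ctble.mono fun y hy => (ZFSet.mem_sep.1 hy).1,
        (e _ _).2 fun N' k _ => k.1.emp, fun x y => ?_, fun u hu hc y hy => ?_⟩, fun m x hx => ?_⟩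
      · simp only [e]
        exact ⟨fun k => ⟨fun N' k1 k2 => ((k1.1.pair x y).1 (k N' k1 k2)).1,
          fun N' k1 k2 => ((k1.1.pair x y).1 (k N' k1 k2)).2⟩,
          fun k N' k1 k2 => (k1.1.pair x y).2 ⟨k.1 N' k1 k2, k.2 N' k1 k2⟩⟩
      · exact (e _ _).2 fun N' k1 k2 => k1.1.sub u ((e _ _).1 hu N' k1 k2) hc hy
      · exact (e _ _).2 fun N' k1 k2 => k1.2 m x ((e _ _).1 hx N' k1 k2)
    refine ⟨ZFSet.iUnion H, cl_iUnion c fun n y hy => (e _ _).2 fun N' k1 k2 =>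
      (e _ _).1 hy N' k1 fun x hx => k2 x (hM (Nat.le_succ n) hx), Set.ext fun y => ?_⟩
    simp only [mem_iUnion, mem_ofPred_eq, ZFSet.mem_iUnion]
    refine exists_congr fun n => ⟨fun k => (e _ _).2 fun N' _ k2 => k2 y k, fun k => ?_⟩
    rw [h3 n]
    exact (ZFSet.mem_sep.1 k).1

/-- total properness of a set of conditions, in the club filter on codes -/
def TP {X : Type 1} [Preorder X] [Cd X] (S : Set X) : Prop :=
  ∀ᶠ N in club, ∀ p ∈ S, cd p ∈ N → ∃ q ∈ S, q ≤ p ∧ TG S q N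

theorem DE.totallyProper {X : Type 1} [Preorder X] [Cd X] {S : Set X} [Small.{0} S] {B : Type}
    [CompleteBooleanAlgebra B] {i : X → B} (h : DE S i) (hS : TP S) : TotallyProper B := by
  let c0 : Cd (B ⊕ Set B) := cdSmall _
  let c1 : Cd B := ⟨fun b => cd (Sum.inl b : B ⊕ Set B), fun _ _ k => Sum.inl.inj (Cd.inj k)⟩
  let c2 : Cd (Set B) := ⟨fun b => cd (Sum.inr b : B ⊕ Set B), fun _ _ k => Sum.inr.inj (Cd.inj k)⟩
  refine club_tr (Φ := fun M => ∀ p, p ≠ ⊥ → Sum.inl p ∈ M → ∃ q, q ≠ ⊥ ∧ q ≤ p ∧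
    ∀ D, Sum.inr D ∈ M → IsDense D → ∃ d ∈ D, Sum.inl d ∈ M ∧ q ≤ d) ?_
  filter_upwards [hS, ev_el fun (b : B) (p : X) => p ∈ S ∧ i p ≤ b,
    ev_cap S fun (D : Set B) (p : X) (d : B) => d ∈ D ∧ i p ≤ d] with N h1 h2 h3 b hb hN
  obtain ⟨p, k1, k2, k3⟩ := h2 b hN (h.dense b hb)
  obtain ⟨q, k4, k5, k6⟩ := h1 p k2 k1
  refine ⟨i q, h.ne q k4, (h.mono _ k4 _ k2 k5).trans k3, fun D j1 j2 => ?_⟩
  obtain ⟨w, j3, -, j4, d, j5, j6, j7⟩ := k6.use0 h3 (y := D) j1 fun r hr => by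
    obtain ⟨d, l1, l2, l3⟩ := j2 _ (h.ne r hr)
    obtain ⟨r', l4, l5⟩ := h.dense d l2
    obtain ⟨w, l6, l7, l8⟩ := h.cmp r hr r' l4 fun k =>
      h.ne r' l4 (disjoint_self.1 (k.mono_left (l5.trans l3)))
    exact ⟨w, l6, l7, d, l1, (h.mono _ l6 _ l4 l8).trans l5⟩
  exact ⟨d, j6, j5, (h.mono _ k4 _ j3 j4).trans j7⟩

/-- a totally proper algebra meets countably many dense sets -/
theorem TotallyProper.meet {B : Type} [CompleteBooleanAlgebra B] (h : TotallyProper B) {p : B}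
    (hp : p ≠ ⊥) (D : ℕ → Set B) (hD : ∀ n, IsDense (D n)) :
    ∃ q, q ≠ ⊥ ∧ q ≤ p ∧ ∀ n, ∃ d ∈ D n, q ≤ d := by
  obtain ⟨C, h1, h2⟩ := h
  obtain ⟨M, h3, h4⟩ := h1.cof (insert (Sum.inl p) (range fun n => Sum.inr (D n)))
    ((countable_range _).insert _)
  obtain ⟨q, k1, k2, k3⟩ := h2 M h3 p hp (h4 (mem_insert _ _))
  exact ⟨q, k1, k2, fun n => let ⟨d, l1, _, l2⟩ := k3 (D n) (h4 (Or.inr ⟨n, rfl⟩)) (hD n)
    ⟨d, l1, l2⟩⟩

end Pool.Agent.Ctry.PS
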