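import Pool.Agent.MP_77405c_lc.PS.Step

/-! Boolean names for a Countryman suborder of a given Aronszajn line. -/

open Set Filter

namespace Pool.Agent.Ctry.PS

theorem exists_enum {A : Om → Prop} (h : ∀ g, ∃ a, g ≤ a ∧ A a) :
    ∃ f : Om → Om, StrictMono f ∧ ∀ i, A (f i) := by
  have key : ∀ (i : Om) (φ : ∀ j, j < i → Om), ∃ a, A a ∧ ∀ j hj, φ j hj < a := fun i φ => by
    have := (ctble_Iio i).to_subtype
    obtain ⟨b, hb⟩ := exists_bound (countable_range fun j : Iio i => φ j.1 j.2)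
    obtain ⟨a, h1, h2⟩ := h b
    exact ⟨a, h2, fun j hj => (hb _ ⟨⟨j, hj⟩, rfl⟩).trans_le h1⟩
  choose g hg1 hg2 using key
  let f : Om → Om := wellFounded_lt.fix g
  have e : ∀ i, f i = g i fun j _ => f j := fun i => wellFounded_lt.fix_eq g i
  exact ⟨f, fun j i hji => by rw [e i]; exact hg2 i (fun j _ => f j) j hji, fun i => by rw [e i]; exact hg1 _ _⟩

theorem separable_of {Y : Type} [LinearOrder Y] {D : Set Y} (hD : D.Countable)
    (h : ∀ a x b : Y, a < x → x < b → ∃ d ∈ D, a < d ∧ d < b) :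
    @TopologicalSpace.SeparableSpace Y (Preorder.topology Y) := by
  let _ := Preorder.topology Y
  have : OrderTopology Y := ⟨rfl⟩
  refine ⟨D ∪ ({y | IsBot y} ∪ {y | IsTop y}), hD.union ((subsingleton_isBot Y).countable.union
    (subsingleton_isTop Y).countable), fun y => mem_closure_iff_nhds.2 fun s hs => ?_⟩
  by_cases h1 : IsBot y
  · exact ⟨y, mem_of_mem_nhds hs, Or.inr (Or.inl h1)⟩
  by_cases h2 : IsTop y
  · exact ⟨y, mem_of_mem_nhds hs, Or.inr (Or.inr h2)⟩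
  simp only [IsBot, IsTop, not_forall, not_le] at h1 h2
  obtain ⟨l, u, k1, k2⟩ := (mem_nhds_iff_exists_Ioo_subset' h1 h2).1 hs
  obtain ⟨d, k3, k4⟩ := h l y u k1.1 k1.2
  exact ⟨d, k2 k4, Or.inl k3⟩

variable {L : Type} [LinearOrder L]

theorem Aronszajn.step (hL : Aronszajn L) {x : Om → L} (hx : Function.Injective x) :
    ∃ (X : Type 1) (_ : Preorder X) (_ : Cd X) (_ : Small.{0} X) (p : X),
      TP (univ : Set X) ∧ HasC (ck (fun a b => x a < x b) X) p := by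
  refine two_step _ (fun X _ p => ⟨fun _ _ _ _ _ h => h, fun _ _ _ => lt_irrefl _,
    fun _ _ _ _ _ => lt_trans, fun q _ a b h => ⟨q, le_rfl, lt_or_gt_of_ne (hx.ne h)⟩⟩)
    (fun q _ A _ h2 h3 => ?_) (fun q _ A _ h2 h3 => ?_) fun q _ A D h0 _ h2 h3 h4 _ _ => ?_
  · obtain ⟨f, k1, k2⟩ := exists_enum (A := fun a => A a q) fun g =>
      let ⟨_, _, k⟩ := h2 q le_rfl g; k
    exact hL.noInc (x ∘ f) fun i j k => h3 q le_rfl _ _ (k1 k) (k2 i) (k2 j)
  · obtain ⟨f, k1, k2⟩ := exists_enum (A := fun a => A a q) fun g =>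
      let ⟨_, _, k⟩ := h2 q le_rfl g; k
    exact hL.noDec (x ∘ f) fun i j k => h3 q le_rfl _ _ (k1 k) (k2 i) (k2 j)
  · have k1 := hL.noSep (x '' {a | A a q}) (separable_of (D := Subtype.val ⁻¹' (x '' D))
      ((h0.image x).preimage Subtype.val_injective) (by
        rintro ⟨_, a, ha, rfl⟩ ⟨_, y, hy, rfl⟩ ⟨_, b, hb, rfl⟩ j1 j2
        obtain ⟨_, -, d, j3, j4⟩ := h4 q le_rfl a y b ha hy hb j1 j2
        exact ⟨⟨x d, d, h3 d j3, rfl⟩, ⟨d, j3, rfl⟩, j4⟩))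
    obtain ⟨b, hb⟩ := exists_bound (countable_of_injective_of_countable_image hx.injOn k1)
    obtain ⟨_, -, a, k2, k3⟩ := h2 q le_rfl b
    exact (hb a k3).not_ge k2

theorem Aronszajn.core (hL : Aronszajn L) {x : Om → L} (hx : Function.Injective x) :
    ∃ (B : Type) (_ : CompleteBooleanAlgebra B), Nontrivial B ∧ TotallyProper B ∧
      ∃ (A : L → B) (K : ℕ → L × L → B), (∀ g, ⨆ a ∈ Ici g, A (x a) = ⊤) ∧
        (∀ y y', A y ⊓ A y' = ⨆ n, K n (y, y')) ∧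
        ∀ n z z', ¬ z ≤ z' → ¬ z' ≤ z → Disjoint (K n z) (K n z') := by
  obtain ⟨X, _, _, _, p, h1, q, -, A, col, a1, a2, a3, a4, a5, a6⟩ := hL.step hx
  obtain ⟨B, _, i, h⟩ := exists_ro (Iic q)
  have o1 : ∀ y p q, q ≤ p → (∃ a, x a = y ∧ A a p) → ∃ a, x a = y ∧ A a q :=
    fun y p q k ⟨a, k1, k2⟩ => ⟨a, k1, a1 a p q k k2⟩
  have o2 : ∀ n (z : L × L) p q, q ≤ p → (∃ a b, (x a, x b) = z ∧ col a b n p) →
      ∃ a b, (x a, x b) = z ∧ col a b n q :=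
    fun n z p q k ⟨a, b, k1, k2⟩ => ⟨a, b, k1, a2 a b n p q k k2⟩
  refine ⟨B, inferInstance, ⟨⟨i q, ⊥, h.ne q le_rfl⟩⟩, h.totallyProper (h1.below q),
    fun y => val (Iic q) i fun r => ∃ a, x a = y ∧ A a r,
    fun n z => val (Iic q) i fun r => ∃ a b, (x a, x b) = z ∧ col a b n r,
    fun g => top_le_iff.1 (h.le fun r hr _ => ?_), fun y y' => le_antisymm (h.le fun r hr k => ?_)
      (iSup_le fun n => le_inf (val_mono ?_) (val_mono ?_)), fun n z z' k k' => ?_⟩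
  · obtain ⟨r', k1, a, k2, k3⟩ := a3 r hr g
    exact ⟨r', k1.trans hr, k1, le_iSup₂_of_le a k2 (le_val (k1.trans hr) ⟨a, rfl, k3⟩)⟩
  · obtain ⟨r1, k1, k2, a, rfl, k3⟩ := h.of_val (o1 y) hr (k.trans inf_le_left)
    obtain ⟨r2, k4, k5, b, rfl, k6⟩ := h.of_val (o1 y') k1
      ((h.mono _ k1 _ hr k2).trans (k.trans inf_le_right))
    obtain ⟨r3, k7, n, k8⟩ := a5 r2 k4 a b (a1 a _ _ k5 k3) k6
    exact ⟨r3, k7.trans k4, k7.trans (k5.trans k2),
      le_iSup_of_le n (le_val (k7.trans k4) ⟨a, b, rfl, k8⟩)⟩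
  · rintro r - ⟨a, b, e, k⟩
    exact ⟨a, congrArg Prod.fst e, (a4 a b n r k).1⟩
  · rintro r - ⟨a, b, e, k⟩
    exact ⟨b, congrArg Prod.snd e, (a4 a b n r k).2⟩
  · rw [disjoint_iff]
    by_contra hn
    obtain ⟨r, hr, k0⟩ := h.dense _ hn
    obtain ⟨r1, k1, k2, a, b, rfl, k3⟩ := h.of_val (o2 n z) hr (k0.trans inf_le_left)
    obtain ⟨r2, k4, k5, c, d, rfl, k6⟩ := h.of_val (o2 n z') k1
      ((h.mono _ k1 _ hr k2).trans (k0.trans inf_le_right))
    have k7 := a2 a b n _ _ k5 k3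
    simp only [Prod.mk_le_mk, not_and, not_le] at k k'
    rcases lt_trichotomy (x a) (x c) with e | e | e
    · exact a6 r2 k4 a b c d n k7 k6 e (k e.le)
    · exact (k e.le).asymm (k' e.ge)
    · exact a6 r2 k4 c d a b n k6 k7 e (k' e.le)

theorem exists_inj (hL : Aronszajn L) : ∃ x : Om → L, Function.Injective x := by
  have := hL.unc
  obtain ⟨e⟩ := (Cardinal.le_def Om L).1 (by
    rw [mk_Om, ← Cardinal.succ_aleph0]
    exact Order.succ_le_of_lt Cardinal.aleph0_lt_mk)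
  exact ⟨e, e.injective⟩

section

variable {B : Type} [CompleteBooleanAlgebra B]

theorem dense_dec {Y : Type} (f : Y → B) : IsDense {d | (∃ y, d ≤ f y) ∨ Disjoint d (⨆ y, f y)} := by
  intro p hp
  by_cases h : Disjoint p (⨆ y, f y)
  · exact ⟨p, Or.inr h, hp, le_rfl⟩
  · obtain ⟨y, hy⟩ := not_forall.1 (disjoint_iSup_iff.not.1 h)
    exact ⟨p ⊓ f y, Or.inl ⟨y, inf_le_right⟩, fun k => hy (disjoint_iff.2 k), inf_le_left⟩

/-- no new reals -/
theorem TotallyProper.real (h : TotallyProper B) (r : ℕ → B) :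
    ⨆ s : Set ℕ, (⨅ n ∈ s, r n) ⊓ ⨅ n ∉ s, (r n)ᶜ = ⊤ := by
  rw [← compl_eq_bot]
  by_contra hn
  obtain ⟨q, k1, k2, k3⟩ := h.meet hn _ fun n => dense_dec fun _ : Unit => r n
  refine k1 (disjoint_self.1 (Disjoint.mono k2 (le_iSup_of_le {n | q ≤ r n} (le_inf
    (le_iInf₂ fun n (k : n ∈ {n | q ≤ r n}) => k) (le_iInf₂ fun n k => ?_))) disjoint_compl_left))
  obtain ⟨d, ⟨_, k4⟩ | k4, k5⟩ := k3 n
  · exact (k (k5.trans k4)).elim
  · rw [iSup_const] at k4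
    exact k5.trans k4.le_compl_right

/-- a name that escapes every countable set is not covered by the values of a sequence -/
theorem TotallyProper.unc (h : TotallyProper B) {Y : Type} {A : Y → B}
    (hA : ∀ S : Set Y, S.Countable → ⨆ y ∉ S, A y = ⊤) (f : ℕ → Y → B)
    (hf : ∀ n, Pairwise fun y y' => Disjoint (f n y) (f n y')) :
    ⨅ y, (A y ⇨ ⨆ n, f n y) = ⊥ := by
  by_contra hn
  obtain ⟨q, k1, k2, k3⟩ := h.meet hn _ fun n => dense_dec (f n)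
  have k4 : (⋃ n, {y | q ≤ f n y}).Countable := countable_iUnion fun n =>
    Set.Subsingleton.countable fun y hy y' hy' => by_contra fun k =>
      k1 (disjoint_self.1 ((hf n k).mono hy hy'))
  refine k1 (disjoint_top.1 (hA _ k4 ▸ disjoint_iSup₂_iff.2 fun y hy => ?_))
  have k5 : q ⊓ A y ≤ ⨆ n, f n y := le_himp_iff.1 (k2.trans (iInf_le _ y))
  have k6 : Disjoint q (⨆ n, f n y) := disjoint_iSup_iff.2 fun n => by
    obtain ⟨d, ⟨y', k7⟩ | k7, k8⟩ := k3 n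
    · refine (hf n fun e => hy (mem_iUnion.2 ⟨n, ?_⟩)).mono_left (k8.trans k7)
      exact e ▸ k8.trans k7
    · exact k7.mono k8 (le_iSup (f n) y)
  exact disjoint_iff.2 (disjoint_self.1 (k6.mono inf_le_left k5))

end

theorem main (L : Type) [LinearOrder L] (hL : Aronszajn L) :
    ∃ (B : Type) (_ : CompleteBooleanAlgebra B), Nontrivial B ∧ TotallyProper B ∧
      (∀ r : ℕ → B, ⨆ s : Set ℕ, (⨅ n ∈ s, r n) ⊓ ⨅ n ∉ s, (r n)ᶜ = ⊤) ∧
      ∃ (A : L → B) (K : ℕ → L × L → B),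
        (∀ f : ℕ → L → B, (∀ n, Pairwise fun x y => Disjoint (f n x) (f n y)) →
          ⨅ x, (A x ⇨ ⨆ n, f n x) = ⊥) ∧
        (∀ x y, A x ⊓ A y = ⨆ n, K n (x, y)) ∧
        ∀ n z z', ¬ z ≤ z' → ¬ z' ≤ z → Disjoint (K n z) (K n z') := by
  obtain ⟨x, hx⟩ := exists_inj hL
  obtain ⟨B, _, h1, h2, A, K, h3, h4⟩ := hL.core hx
  refine ⟨B, inferInstance, h1, h2, h2.real, A, K, h2.unc fun S hS => ?_, h4⟩
  obtain ⟨g, hg⟩ := exists_bound (hS.preimage hx)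
  exact top_le_iff.1 ((h3 g).ge.trans (iSup₂_le fun a ha =>
    le_iSup₂_of_le (x a) (fun k => (hg a k).not_ge ha) le_rfl))

end Pool.Agent.Ctry.PS
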