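import Mathlib.Order.PFilter
import Pool.Agent.MP_77405c_lc.PS.Main

/-! A remark that is not handed in: BPFA implies that every Aronszajn
line contains a Countryman line. -/

open Set

namespace Pool.Agent.Ctry.PS

/-- `B` is proper -/
def Proper (B : Type) [CompleteBooleanAlgebra B] : Prop :=
  ∃ C : Set (Set (B ⊕ Set B)), IsClub C ∧ ∀ M ∈ C, ∀ p, p ≠ ⊥ → Sum.inl p ∈ M →
    ∃ q, q ≠ ⊥ ∧ q ≤ p ∧ ∀ D, Sum.inr D ∈ M → IsDense D → q ≤ sSup {d ∈ D | Sum.inl d ∈ M}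

/-- BPFA, for complete Boolean algebras -/
def BPFA : Prop := ∀ (B : Type) [CompleteBooleanAlgebra B] [Nontrivial B], Proper B →
  ∀ F : Set (Set B), Cardinal.mk F ≤ Cardinal.aleph 1 →
    (∀ A ∈ F, Cardinal.mk A ≤ Cardinal.aleph 1 ∧ A.PairwiseDisjoint id ∧ sSup A = ⊤) →
    ∃ G : Order.PFilter B, ⊥ ∉ G ∧ ∀ A ∈ F, ∃ a ∈ A, a ∈ G

variable {B : Type} [CompleteBooleanAlgebra B]

theorem TotallyProper.proper (h : TotallyProper B) : Proper B :=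
  let ⟨C, h1, h2⟩ := h
  ⟨C, h1, fun M hM p hp k => let ⟨q, k1, k2, k3⟩ := h2 M hM p hp k
    ⟨q, k1, k2, fun D j1 j2 => let ⟨_, l1, l2, l3⟩ := k3 D j1 j2; l3.trans (le_sSup ⟨l1, l2⟩)⟩⟩

theorem exists_antichain {J : Type} (b : J → B) (h : ⨆ j, b j = ⊤) : ∃ A : Set B,
    (Cardinal.mk A ≤ Cardinal.mk J ∧ A.PairwiseDisjoint id ∧ sSup A = ⊤) ∧ ∀ a ∈ A, ∃ j, a ≤ b j := by
  obtain ⟨_, _⟩ := exists_wellFoundedLT J
  let a : J → B := fun j => b j \ ⨆ i ∈ Iio j, b i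
  have d : ∀ i j, i < j → Disjoint (a i) (a j) := fun i j k =>
    disjoint_sdiff_self_right.mono_left (sdiff_le.trans (le_biSup (s := Iio j) b k))
  refine ⟨range a, ⟨Cardinal.mk_range_le, ?_, top_le_iff.1 (h.ge.trans (iSup_le fun j => ?_))⟩, ?_⟩
  · rintro _ ⟨i, rfl⟩ _ ⟨j, rfl⟩ k
    rcases lt_trichotomy i j with e | e | e
    · exact d i j e
    · exact (k (e ▸ rfl)).elim
    · exact (d j i e).symm
  · induction j using WellFoundedLT.induction with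
    | _ j ih => exact le_sup_sdiff.trans (sup_le (iSup₂_le ih) (le_sSup ⟨j, rfl⟩))
  · rintro _ ⟨j, rfl⟩
    exact ⟨j, sdiff_le⟩

theorem BPFA.countryman (h : BPFA) (L : Type) [LinearOrder L] (hL : Aronszajn L) :
    ∃ C : Set L, ¬ C.Countable ∧ ∃ K : ℕ → Set (L × L),
      (∀ n, IsChain (· ≤ ·) (K n)) ∧ C ×ˢ C = ⋃ n, K n := by
  obtain ⟨x, hx⟩ := exists_inj hL
  obtain ⟨B, _, _, h2, A, K, h3, h4, h5⟩ := hL.core hx
  choose F f1 f2 using fun g : Om => exists_antichain (fun a : Ici g => A (x a))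
    (by rw [← h3 g, iSup_subtype])
  choose H g1 g2 using fun z : Om × Om => exists_antichain
    (fun n : Option ℕ => n.elim (A (x z.1) ⊓ A (x z.2))ᶜ fun n => K n (x z.1, x z.2))
    (by rw [iSup_option]; simp only [Option.elim]; rw [← h4, compl_sup_eq_top])
  have c := Cardinal.aleph0_le_aleph 1
  obtain ⟨G, k1, k2⟩ := h B h2.proper (range F ∪ range H)
    ((Cardinal.mk_union_le _ _).trans (Cardinal.add_le_of_le c (Cardinal.mk_range_le.trans mk_Om.le)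
      (Cardinal.mk_range_le.trans (by simp [mk_Om])))) (by
      rintro _ (⟨g, rfl⟩ | ⟨z, rfl⟩)
      · exact ⟨(f1 g).1.trans ((Cardinal.mk_set_le _).trans mk_Om.le), (f1 g).2⟩
      · exact ⟨(g1 z).1.trans (Cardinal.mk_le_aleph0.trans c), (g1 z).2⟩)
  have nd : ∀ {a b}, a ∈ G → b ∈ G → ¬ Disjoint a b := fun k k' e =>
    k1 (disjoint_iff.1 e ▸ Order.PFilter.inf_mem k k')
  refine ⟨x '' {a | A (x a) ∈ G}, fun k => ?_,
    fun n => {z ∈ (x '' {a | A (x a) ∈ G}) ×ˢ (x '' {a | A (x a) ∈ G}) | K n z ∈ G},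
    fun n z hz z' hz' _ => by_contra fun k => nd hz.2 hz'.2
      (h5 n z z' (fun e => k (Or.inl e)) fun e => k (Or.inr e)),
    subset_antisymm ?_ (iUnion_subset fun n z hz => hz.1)⟩
  · obtain ⟨g, hg⟩ := exists_bound (countable_of_injective_of_countable_image hx.injOn k)
    obtain ⟨a, j1, j2⟩ := k2 _ (Or.inl ⟨g, rfl⟩)
    obtain ⟨b, j3⟩ := f2 g a j1
    exact (hg b (Order.PFilter.mem_of_le j3 j2)).not_ge b.2
  · rintro ⟨_, _⟩ ⟨⟨a, ha, rfl⟩, b, hb, rfl⟩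
    obtain ⟨d, j1, j2⟩ := k2 _ (Or.inr ⟨(a, b), rfl⟩)
    obtain ⟨_ | n, j3⟩ := g2 _ d j1
    · exact (nd (Order.PFilter.inf_mem ha hb) (Order.PFilter.mem_of_le j3 j2)
        disjoint_compl_right).elim
    · exact mem_iUnion.2 ⟨n, ⟨⟨a, ha, rfl⟩, b, hb, rfl⟩, Order.PFilter.mem_of_le j3 j2⟩

end Pool.Agent.Ctry.PS
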