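import Pool.Agent.MP_77405c_lc.Link2
import Pool.Agent.MP_77405c_lc.Iter
import Pool.Agent.MP_77405c_lc.Kf
import Pool.Agent.MP_77405c_lc.Sch
import Pool.Agent.MP_77405c_lc.PS.Alg

/-! The two step forcing: an isomorphism forcing followed by a homogenizing forcing. -/

open Set Filter

namespace Pool.Agent.Ctry.PS

section

variable {P : Type 1} [Preorder P] [Cd P]

theorem TP.dist [Small.{0} P] (h : TP (univ : Set P)) : Dist (univ : Set P) := by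
  intro p _ D h1 h2
  obtain ⟨N, ⟨k1, k2, k3, k4⟩, -⟩ := ev_exists (h.and ((ev_const p).and
    ((ev_capB univ fun (n : ℕ) (w : P) (_ : Unit) => D n w).and (ev_ctble fun n : ℕ => ev_const n)))) ∅
  obtain ⟨q, -, k5, k6⟩ := k1 p trivial k2
  refine ⟨q, trivial, k5, fun n => ?_⟩
  obtain ⟨w, -, -, l1, _, -, l2⟩ := k6.use k3 trivial (k4 n) k2 k5 fun r _ hr =>
    let ⟨r', _, l1, l2⟩ := h2 n r trivial hr; ⟨r', trivial, l1, (), l2⟩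
  exact h1 n w q trivial l1 l2

theorem TP.below [Small.{0} P] (h : TP (univ : Set P)) (p : P) : TP (Iic p) := by
  filter_upwards [h, ev_const p, ev_capB univ fun (u : U) (w : P) (v : P) => v ≤ p ∧ cd v ∈ u ∧ w ≤ v]
    with N h1 h2 h3 a ha hN
  obtain ⟨q, -, k1, k2⟩ := h1 a trivial hN
  refine ⟨q, k1.trans ha, k1, fun u hu hd => ?_⟩
  obtain ⟨w, -, -, l1, v, l2, l3, l4, l5⟩ := k2.use h3 trivial (y := u) hu h2 (k1.trans ha)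
    fun r _ hr => let ⟨v, l1, l2, l3⟩ := hd r hr; ⟨v, trivial, l2, v, l1, l3, le_rfl⟩
  exact ⟨v, l3, l4, l2, l1.trans l5⟩

/-- the valid pairs -/
abbrev St (D : Dat P) : Type 1 := {z : P × Pc // Val D z.1 z.2}

variable {D : Dat P}

instance [Small.{0} P] : Small.{0} (St D) :=
  @small_subset _ _ {z : P × Pc | Val D z.1 z.2} (fun _ k g hg => (k.2.2.2.2 g hg).1)
    (Book.small_can (P := P))

theorem TP.step [Small.{0} P] (h : TP (univ : Set P)) (hA : Ax D) : TP (univ : Set (St D)) := by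
  obtain ⟨Q, hQ, H⟩ := Sch.sch Ext.ext Ext.comb P h.dist D hA
  have hF : ∀ u : U, ∃ u' : U, ∀ z : P × Pc, cd z ∈ u' ↔ Val D z.1 z.2 ∧ cd z ∈ u := fun u => by
    have : Small.{0} {z : P × Pc | Val D z.1 z.2} := inferInstanceAs (Small.{0} (St D))
    have : Small.{0} {z : P × Pc | Val D z.1 z.2 ∧ cd z ∈ u} :=
      small_subset (s := {z : P × Pc | Val D z.1 z.2}) fun _ h => h.1
    exact (exists_code {z : P × Pc | Val D z.1 z.2 ∧ cd z ∈ u}).imp fun _ h => h.1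
  choose F hF using hF
  filter_upwards [h, hQ, ev_mod0, ev_fun F] with N h1 h2 h3 h4 ⟨⟨a₀, c₀⟩, v⟩ _ hN
  obtain ⟨k1, k2⟩ := h3.prod.1 hN
  obtain ⟨a₁, -, k3, k4⟩ := h1 a₀ trivial k1
  obtain ⟨N', ⟨j1, j2, j3⟩, j4⟩ := ev_exists (h.and (hQ.and ev_mod0)) (cd (N, a₁))
  obtain ⟨j5, j6⟩ := j3.prod.1 j4
  obtain ⟨a, -, k5, k6⟩ := j1 a₁ trivial j6
  obtain ⟨B', -, l2, c, l3, l4, l5⟩ := H ∅ 0 {N} N N' [a] a₀ c₀ (by simp) h3.emp (rk_zero _ _)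
    (fun M hM => ZFSet.mem_singleton.1 hM ▸ h2) j2 j5 (by simp)
    (fun b hb => by
      rw [List.mem_singleton.1 hb]
      exact ⟨k6, fun M hM => ZFSet.mem_singleton.1 hM ▸ k4.mono k5, k5.trans k3,
        fun b' hb' => LB.of_le (List.mem_singleton.1 hb').ge⟩) k1 k2 v
  refine ⟨⟨(a, c), l4 a (by simp)⟩, trivial, ⟨k5.trans k3, l3⟩, fun u hu hd => ?_⟩
  obtain ⟨b, c', m1, m2, m3, m4, m5⟩ := l5 N l2.mem (F u) (h4 u hu) fun p₁ c₁ v₁ => by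
    obtain ⟨w, -, n1, n2⟩ := hd ⟨(p₁, c₁), v₁⟩ trivial
    exact ⟨w.1.1, n1.1, w.1.2, n1.2, w.2, (hF u w.1).2 ⟨w.2, n2⟩⟩
  obtain ⟨m6, m7⟩ := (hF u (b, c')).1 m1
  exact ⟨⟨(b, c'), m6⟩, trivial, m7, h3.prod.2 ⟨m2, m3⟩, m5 a (by simp), m4⟩

theorem lift (hA : Ax D) {r : St D} {b : P} (h : b ≤ r.1.1) : ∃ r' ≤ r, r'.1.1 = b :=
  ⟨⟨(b, r.1.2), Book.val_mono hA h r.2⟩, ⟨h, le_rfl⟩, rfl⟩

/-- the generic set of nodes -/
def Fu (x : TT) (r : St D) : Prop := x ∈ r.1.2.u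

theorem fu_opn : Opn (Fu (D := D)) := fun _ _ _ k h => k.2.2.1 h

omit [Preorder P] in
theorem common {r : St D} {x x' y y' : TT} {w : Seq} (h1 : Fu x r) (h2 : Fu x' r) (h3 : Fu y r)
    (h4 : Fu y' r) (s1 : Sp x.pi.1 x'.pi.1 w) (s2 : Sp y.pi.1 y'.pi.1 w) :
    ∃ e, D.V r.1.1 x x' e ∧ D.V r.1.1 y y' e := r.2.2.2.1 x h1 x' h2 y h3 y' h4 w s1 s2

/-- a legitimate promise of single nodes can be kept by the generic -/
theorem generic [Small.{0} P] (hD : Dist (univ : Set P)) (hA : Ax D) {a : P} {Γ : Tup → P → Prop}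
    (hL : D.Leg a Γ) (h1 : ∀ τ, ∀ r ≤ a, Γ τ r → ∃ x, τ.l = [x]) :
    ∃ p : St D, p.1.1 ≤ a ∧ ∀ r ≤ p, ∀ h : Om, ∃ r' ≤ r, ∃ τ : Tup, h ≤ ht τ ∧
      Γ τ r'.1.1 ∧ ∀ x ∈ τ.l, Fu x r' := by
  have : Small.{0} {z : Tup × P | Γ z.1 z.2} := small_subset (subset_univ _)
  obtain ⟨u, u1, u2⟩ := exists_code {z : Tup × P | Γ z.1 z.2}
  have e : nm u = Γ := funext fun τ => funext fun b => propext (u1 (τ, b))
  obtain ⟨t1, -, t3, -⟩ := hA.tree a Γ hL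
  obtain ⟨a1, k1, z, -, k2⟩ := t3 a le_rfl ⊥
  obtain ⟨x, hx⟩ := h1 z a1 k1 k2
  obtain ⟨a2, k3, c1, -, k4, k5⟩ := Ext.comb _ hD D hA a1 ⟨ht z, {x}, ∅⟩ u z
    ⟨countable_singleton x, fun y hy => (z.ht_mem (by rw [hx, hy]; simp)).le,
      fun _ i1 _ i2 _ _ _ _ w s _ => by
        rw [i1, i2] at s
        exact (s.asymm s).elim, by simp, fun _ h => (ZFSet.notMem_empty _ h).elim⟩
    (fun y hy => let ⟨z, _, h⟩ := u2 y hy; ⟨z, h⟩) (e ▸ hA.mono _ _ _ k1 hL) (e ▸ k2) rfl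
    (by simp [Inj, hx]) (by simp [hx])
  refine ⟨⟨(a2, c1), k4⟩, k3.trans k1, fun r hr h => ?_⟩
  obtain ⟨h', l4⟩ := exists_gt (max r.1.2.α h)
  obtain ⟨b', l5, c', l6, l7, l8⟩ := Ext.ext _ hD D hA r.1.1 r.1.2 h' r.2
    ((le_max_left _ _).trans_lt l4)
  obtain ⟨τ, m1, m2, -, m3⟩ := (l8.2.2.2.2 u (l6.2.2.2 (hr.2.2.2.2 k5))).2.2 ∅ finite_empty
  exact ⟨⟨(b', c'), l8⟩, ⟨l5, l6⟩, τ, by rw [m1, l7]; exact (le_max_right _ _).trans l4.le,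
    e ▸ m2, fun y hy => (m3 y hy).1⟩

end

instance : Cd PUnit.{2} := ⟨fun _ => ∅, fun _ _ _ => rfl⟩

theorem tp_unit : TP (univ : Set PUnit.{2}) := .of_forall fun _ p _ hN =>
  ⟨p, trivial, le_rfl, fun _ _ hd => let ⟨w, _, _, k⟩ := hd p trivial; ⟨w, trivial, k, hN, le_rfl⟩⟩

/-- a ground model line as a name -/
abbrev ck (lt : Om → Om → Prop) (X : Type 1) : Om → Om → X → Prop := fun a b _ => lt a b

/-- an Aronszajn line on `ω₁` gets a Countryman suborder in a totally proper extension -/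
theorem two_step (lt : Om → Om → Prop) (l1 : ∀ (X : Type 1) [Preorder X] (p : X), Lin (ck lt X) p)
    (l2 : NoInc (ck lt PUnit) ⟨⟩) (l3 : NoInc (fun a b => ck lt PUnit b a) ⟨⟩)
    (l4 : NoSep (ck lt PUnit) ⟨⟩) :
    ∃ (X : Type 1) (_ : Preorder X) (_ : Cd X) (_ : Small.{0} X) (p : X),
      TP (univ : Set X) ∧ HasC (ck lt X) p := by
  have hb := Chi.br Chi.spec
  obtain ⟨T', t1, t2, t3, t4, t5, t6⟩ := Line.line _ tp_unit.dist _ _ (l1 _ _) l2 l3 l4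
  obtain ⟨D, d1, d3, d4⟩ := Iso.iso Chi.prune hb _ tp_unit.dist T'
  obtain ⟨Γ, g1, g2⟩ := d4 _ t1 t2 t4 t5 t3
  obtain ⟨p', -, q3⟩ := generic tp_unit.dist d1 g1
    fun τ r _ k => let ⟨x, k1, _⟩ := g2 τ r k; ⟨x, k1⟩
  have hD := tp_unit.step d1
  let F : TT → St D → Prop := fun x r => Fu x r ∧ T' x.rho ⟨⟩
  have f1 : Opn F := fun x _ _ k h => ⟨fu_opn x _ _ k h.1, h.2⟩
  let Ub : T → St D → Prop := fun y r => ∃ x, F x r ∧ Below y x.pi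
  let K : T → St D → Prop := fun w r =>
    ∃ x x', F x r ∧ F x' r ∧ Sp x.pi.1 x'.pi.1 w.1 ∧ Lx x.rho x'.rho
  have u1 : Opn Ub := fun y _ _ k ⟨x, k1, k2⟩ => ⟨x, f1 x _ _ k k1, k2⟩
  have c1 : Opn K := fun y _ _ k ⟨x, x', k1, k2, k3⟩ => ⟨x, x', f1 x _ _ k k1, f1 x' _ _ k k2, k3⟩
  obtain ⟨E, e1, e3⟩ := Kf.kf Chi.prune hb _ hD.dist Ub K
  obtain ⟨b', b1, e, e4, Δ, e5, e6⟩ := e3 p' u1
    (fun y _ k ⟨x, k1, k2⟩ => ⟨x, k1, (below_res y k).trans k2⟩) c1 fun r hr h => by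
      obtain ⟨r', k1, τ, k2, k3, k4⟩ := q3 r hr h
      obtain ⟨x, k5, k6⟩ := g2 τ _ k3
      have k7 : x ∈ τ.l := by simp [k5]
      exact ⟨r', k1, res x.pi h, ht_res_of_le (k2.trans_eq (τ.ht_mem k7).symm), x,
        ⟨k4 x k7, k6⟩, below_res _ _⟩
  obtain ⟨p'', r2, r3⟩ := generic hD.dist e1 e5
    fun τ r k1 k => let ⟨x, k1, _⟩ := e6 τ r k1 k; ⟨x, k1⟩
  have hE := hD.step e1
  have l5 := l1 (St E) p''
  refine ⟨St E, inferInstance, inferInstance, inferInstance, p'', hE,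
    Line.sel Chi.chi Chi.spec _ hE.dist _ p'' l5 (fun y ν r => (∃ x, Fu x r ∧ x.pi = y) ∧
    ∃ x, F x r.1.1 ∧ Below y x.pi ∧ ht x.rho ≤ ν ∧
      ∀ μ < ht x.rho, (x.rho.f μ = 1 ∧ lt μ ν) ∨ (x.rho.f μ = 0 ∧ lt ν μ)) e
    (fun y ν _ _ k ⟨⟨x, k1, k2⟩, x', k3, k4⟩ => ⟨⟨x, fu_opn x _ _ k k1, k2⟩, x',
      f1 x' _ _ k.1 k3, k4⟩)
    (fun y ν r ⟨_, x, _, k1, k2, _⟩ => k1.ht_le.trans (x.h.ge.trans k2))
    (fun r hr h => ?_) ?_⟩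
  · obtain ⟨r', k1, τ, k2, k3, k4⟩ := r3 r hr h
    obtain ⟨x, k5, b'', k6, x', k7, k8⟩ := e6 τ _ ((k1.trans hr).1.trans r2) k3
    have k9 : x ∈ τ.l := by simp [k5]
    obtain ⟨r'', m1, rfl⟩ := lift e1 k6
    obtain ⟨ν, m4⟩ := t6 _ _ k7.2
    exact ⟨r'', m1.trans k1, x.pi, ν, k2.trans_eq (τ.ht_mem k9).symm,
      ⟨x, fu_opn x _ _ m1 (k4 x k9), rfl⟩, x', k7, k8, m4⟩
  · rintro r hr y y' ν ν' ⟨⟨z, k1, k2⟩, x, k3, k4, -, k5⟩ ⟨⟨z', m1, m2⟩, x', m3, m4, -, m5⟩ ⟨w, hw⟩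
    obtain ⟨w, rfl⟩ := hw.exists_T
    have w1 : Sp z.pi.1 z'.pi.1 w.1 := by rwa [k2, m2]
    have w2 : Sp x.pi.1 x'.pi.1 w.1 := hw.ext (T.below_iff.1 k4) (T.below_iff.1 m4)
    obtain ⟨e', n2, -⟩ := common k1 m1 k1 m1 w1 w1
    have n3 := e4 _ (hr.1.trans r2) z z' e' w n2 w1
    refine ⟨r, le_rfl, ?_⟩
    cases e
    · obtain ⟨e0, n5, -⟩ := common k3.1 m3.1 k3.1 m3.1 w2 w2
      have n6 := d3 _ _ _ _ n5
      cases e0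
      · exact Two.lt_of_lx l5 hr m5 k5 n6
      · exact (n3 _ le_rfl ⟨x, x', k3, m3, w2, n6⟩).elim
    · obtain ⟨v, v', n4, n5, n6, n7⟩ := n3
      obtain ⟨e0, n8, n9⟩ := common k3.1 m3.1 n4.1 n5.1 w2 n6
      cases e0
      · exact (n7.asymm (d3 _ _ _ _ n9)).elim
      · exact Two.lt_of_lx l5 hr k5 m5 (d3 _ _ _ _ n8)

end Pool.Agent.Ctry.PS
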